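import Pool.Agent.Results.MP_4613a9_al.AlmostStabilizer

/-!
# Exceptional radii lie in spikes of bounded width

`γ (n) = |B(n)|`, `r n = γ (n + 1) / γ (n)` in a group of subexponential growth, for example in the
first Grigorchuk group. For every `δ > 0` there is `j` such that around every `n ≥ j` with
`r n ≥ 1 + δ` the sequence `r` jumps up by more than `δ / (2 j)` less than `j` steps before and down
by more than `δ / (2 j)` less than `j` steps after. So `r` converges as soon as one of the two
one-sided conditions `limsup (r (n + 1) - r n) ≤ 0`, `liminf (r (n + 1) - r n) ≥ 0` holds.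

Proof. If `r ≥ 1 + δ / 2` on `j` consecutive radii then `γ (j) ≥ (1 + δ / 2) ^ j` by
submultiplicativity, which is false for large `j`.
-/

set_option autoImplicit false

namespace Pool.Agent.Results.MP_4613a9_al.OneSidedDifferences

open Filter Topology
open Pool.Agent.Results.MP_4613a9_al.AlmostStabilizer

variable {G : Type} [Group G]

/-- Every `n ≥ j` with `r n ≥ 1 + δ` has a jump of `r` upwards by more than `δ / (2 j)` within the
`j` steps before and a jump downwards by more than `δ / (2 j)` within the `j` steps after. -/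
def Spikes (S : Set G) : Prop :=
  ∀ δ : ℝ, 0 < δ → ∃ j : ℕ, 0 < j ∧ ∀ n : ℕ, j ≤ n → 1 + δ ≤ ratio S n →
    (∃ i < j, δ / (2 * j) < ratio S (n - i) - ratio S (n - i - 1)) ∧
      ∃ i < j, δ / (2 * j) < ratio S (n + i) - ratio S (n + i + 1)

/-- The sequence `r n` converges iff its increments are asymptotically nonpositive, and iff they
are asymptotically nonnegative. -/
def OneSided (S : Set G) : Prop :=
  ((∃ L : ℝ, Tendsto (ratio S) atTop (𝓝 L)) ↔
    ∀ ε : ℝ, 0 < ε → ∀ᶠ n in atTop, ratio S (n + 1) - ratio S n ≤ ε) ∧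
  ((∃ L : ℝ, Tendsto (ratio S) atTop (𝓝 L)) ↔
    ∀ ε : ℝ, 0 < ε → ∀ᶠ n in atTop, -ε ≤ ratio S (n + 1) - ratio S n)

theorem ball_submul {S : Set G} (hS : S.Finite) (n j : ℕ) :
    (Ball S (n + j)).ncard ≤ (Ball S n).ncard * (Ball S j).ncard := by
  have hsub : Ball S (n + j) ⊆ (fun p : G × G => p.1 * p.2) '' (Ball S n ×ˢ Ball S j) := by
    rintro g ⟨l, h1, h2, rfl⟩
    refine ⟨((l.take n).prod, (l.drop n).prod), ⟨⟨l.take n, ?_, ?_, rfl⟩, ⟨l.drop n, ?_, ?_, rfl⟩⟩, ?_⟩
    · exact List.length_take_le _ _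
    · intro s hs
      exact h2 s (List.mem_of_mem_take hs)
    · rw [List.length_drop]
      omega
    · intro s hs
      exact h2 s (List.mem_of_mem_drop hs)
    · show (l.take n).prod * (l.drop n).prod = l.prod
      exact List.prod_take_mul_prod_drop l n
  have hfin : (Ball S n ×ˢ Ball S j).Finite := (ball_finite hS n).prod (ball_finite hS j)
  calc (Ball S (n + j)).ncard ≤ ((fun p : G × G => p.1 * p.2) '' (Ball S n ×ˢ Ball S j)).ncard :=
        Set.ncard_le_ncard hsub (hfin.image _)
    _ ≤ (Ball S n ×ˢ Ball S j).ncard := Set.ncard_image_le hfin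
    _ = (Ball S n).ncard * (Ball S j).ncard := Set.ncard_prod

/-- windows of bounded length with a small ratio -/
theorem window {S : Set G} (hS : S.Finite) (hsub : Subexponential S) {δ : ℝ} (hδ : 0 < δ) :
    ∃ j : ℕ, 0 < j ∧ ∀ n : ℕ, ∃ i < j, ratio S (n + i) < 1 + δ := by
  obtain ⟨j, hj, hj0⟩ := ((hsub (1 + δ / 2) (by linarith)).and (eventually_gt_atTop 0)).exists
  refine ⟨j, hj0, fun n => ?_⟩
  by_contra hcon
  push Not at hcon
  have hgrow : ∀ k ≤ j, (1 + δ) ^ k * ((Ball S n).ncard : ℝ) ≤ ((Ball S (n + k)).ncard : ℝ) := by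
    intro k
    induction k with
    | zero =>
      intro _
      simp
    | succ k ih =>
      intro hk
      have h1 := ih (by omega)
      have h2 := hcon k (by omega)
      unfold ratio at h2
      rw [le_div_iff₀ (card_pos hS (n + k))] at h2
      calc (1 + δ) ^ (k + 1) * ((Ball S n).ncard : ℝ)
          = (1 + δ) * ((1 + δ) ^ k * ((Ball S n).ncard : ℝ)) := by ring
        _ ≤ (1 + δ) * ((Ball S (n + k)).ncard : ℝ) := by gcongr
        _ ≤ ((Ball S (n + k + 1)).ncard : ℝ) := h2
  have h1 := hgrow j le_rfl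
  have h2 : ((Ball S (n + j)).ncard : ℝ) ≤ ((Ball S n).ncard : ℝ) * ((Ball S j).ncard : ℝ) := by
    exact_mod_cast ball_submul hS n j
  have hp := card_pos hS n
  have h3 : (1 + δ) ^ j * ((Ball S n).ncard : ℝ) ≤ (1 + δ / 2) ^ j * ((Ball S n).ncard : ℝ) := by
    calc (1 + δ) ^ j * ((Ball S n).ncard : ℝ) ≤ ((Ball S n).ncard : ℝ) * ((Ball S j).ncard : ℝ) :=
          h1.trans h2
      _ ≤ ((Ball S n).ncard : ℝ) * (1 + δ / 2) ^ j := by gcongr
      _ = (1 + δ / 2) ^ j * ((Ball S n).ncard : ℝ) := mul_comm _ _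
  have h4 : (1 + δ) ^ j ≤ (1 + δ / 2) ^ j := le_of_mul_le_mul_right h3 hp
  have h5 : (1 + δ / 2) ^ j < (1 + δ) ^ j :=
    pow_lt_pow_left₀ (by linarith) (by linarith) (by omega)
  linarith

/-- a sum of `m ≤ j` increments larger than `δ` has an increment larger than `δ / j` -/
theorem exists_big {j m : ℕ} (hm : m ≤ j) (f : ℕ → ℝ) {δ : ℝ} (hδ : 0 < δ)
    (h : δ < f m - f 0) : ∃ i < m, δ / j < f (i + 1) - f i := by
  by_contra hcon
  push Not at hcon
  have hj : 0 < j := by
    rcases Nat.eq_zero_or_pos j with h0 | h0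
    · have : m = 0 := by omega
      subst this
      linarith
    · exact h0
  have hjr : (0 : ℝ) < j := by exact_mod_cast hj
  have h1 : f m - f 0 ≤ m * (δ / j) := by
    have h2 : ∀ k ≤ m, f k - f 0 ≤ k * (δ / j) := by
      intro k
      induction k with
      | zero =>
        intro _
        simp
      | succ k ih =>
        intro hk
        have h3 := ih (by omega)
        have h4 := hcon k (by omega)
        push_cast
        linarith
    exact h2 m le_rfl
  have h5 : (m : ℝ) * (δ / j) ≤ δ := by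
    have h6 : (m : ℝ) ≤ j := by exact_mod_cast hm
    calc (m : ℝ) * (δ / j) ≤ j * (δ / j) := by gcongr
      _ = δ := by field_simp
  linarith

theorem spikes {S : Set G} (hS : S.Finite) (hsub : Subexponential S) : Spikes S := by
  intro δ hδ
  obtain ⟨j, hj0, hj⟩ := window hS hsub (δ := δ / 2) (by positivity)
  have hjr : (0 : ℝ) < j := by exact_mod_cast hj0
  have e : δ / (2 * j) = (δ / 2) / j := by field_simp
  refine ⟨j, hj0, fun n hn hr => ⟨?_, ?_⟩⟩
  · -- the window `[n - j, n)`
    obtain ⟨i0, hi0, hlt⟩ := hj (n - j)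
    obtain ⟨m, hm1, hm2, hm⟩ : ∃ m, 1 ≤ m ∧ m ≤ j ∧ n - j + i0 = n - m := ⟨j - i0, by omega, by omega, by omega⟩
    rw [hm] at hlt
    obtain ⟨i, hi, hb⟩ := exists_big (j := j) hm2 (fun k => ratio S (n - m + k)) (δ := δ / 2)
      (by positivity) (by
        show δ / 2 < ratio S (n - m + m) - ratio S (n - m + 0)
        rw [Nat.sub_add_cancel (by omega), Nat.add_zero]
        linarith)
    refine ⟨m - (i + 1), by omega, ?_⟩
    rw [e]
    have e1 : n - (m - (i + 1)) = n - m + (i + 1) := by omega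
    have e2 : n - (m - (i + 1)) - 1 = n - m + i := by omega
    rw [e2, e1]
    exact hb
  · -- the window `(n, n + j]`
    obtain ⟨i0, hi0, hlt⟩ := hj (n + 1)
    obtain ⟨i, hi, hb⟩ := exists_big (j := j) (m := i0 + 1) (by omega)
      (fun k => -ratio S (n + k)) (δ := δ / 2) (by positivity) (by
        show δ / 2 < -ratio S (n + (i0 + 1)) - -ratio S (n + 0)
        have e3 : n + (i0 + 1) = n + 1 + i0 := by omega
        have e0 : n + 0 = n := rfl
        rw [e3, e0]
        linarith)
    refine ⟨i, by omega, ?_⟩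
    rw [e]
    have e4 : n + (i + 1) = n + i + 1 := by omega
    have hb' : δ / 2 / (j : ℝ) < -ratio S (n + (i + 1)) - -ratio S (n + i) := hb
    rw [e4] at hb'
    linarith

theorem one_le_ratio' {S : Set G} (hS : S.Finite) (n : ℕ) : 1 ≤ ratio S n := by
  unfold ratio
  rw [le_div_iff₀ (card_pos hS n), one_mul]
  exact_mod_cast Set.ncard_le_ncard (ball_mono S (Nat.le_succ n)) (ball_finite hS (n + 1))

/-- if the exceptional radii end, the ratio tends to one -/
theorem tendsto_of {S : Set G} (hS : S.Finite)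
    (h : ∀ δ : ℝ, 0 < δ → ∀ᶠ n in atTop, ratio S n < 1 + δ) : Tendsto (ratio S) atTop (𝓝 1) := by
  rw [Metric.tendsto_atTop]
  intro ε hε
  obtain ⟨N, hN⟩ := eventually_atTop.1 (h ε hε)
  refine ⟨N, fun n hn => ?_⟩
  have h1 := hN n hn
  have h2 := one_le_ratio' hS n
  rw [Real.dist_eq, abs_of_nonneg (by linarith)]
  linarith

theorem diff_tendsto {S : Set G} {L : ℝ} (h : Tendsto (ratio S) atTop (𝓝 L)) :
    Tendsto (fun n => ratio S (n + 1) - ratio S n) atTop (𝓝 0) := by
  have h1 := ((tendsto_add_atTop_iff_nat 1).2 h).sub h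
  rwa [sub_self] at h1

theorem oneSided {S : Set G} (hS : S.Finite) (hsub : Subexponential S) : OneSided S := by
  have hsp := spikes hS hsub
  refine ⟨⟨?_, fun h => ⟨1, tendsto_of hS fun δ hδ => ?_⟩⟩, ⟨?_, fun h => ⟨1, tendsto_of hS fun δ hδ => ?_⟩⟩⟩
  · rintro ⟨L, hL⟩ ε hε
    filter_upwards [(diff_tendsto hL).eventually (gt_mem_nhds hε)] with n hn
    exact hn.le
  · obtain ⟨j, hj0, hj⟩ := hsp δ hδ
    have hjr : (0 : ℝ) < j := by exact_mod_cast hj0
    obtain ⟨N, hN⟩ := eventually_atTop.1 (h (δ / (2 * j)) (by positivity))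
    filter_upwards [eventually_ge_atTop (N + j + 1)] with n hn
    by_contra hcon
    push Not at hcon
    obtain ⟨⟨i, hi, hb⟩, _⟩ := hj n (by omega) hcon
    have h1 := hN (n - i - 1) (by omega)
    have e : n - i - 1 + 1 = n - i := by omega
    rw [e] at h1
    linarith
  · rintro ⟨L, hL⟩ ε hε
    have h0 : -ε < 0 := by linarith
    filter_upwards [(diff_tendsto hL).eventually (lt_mem_nhds h0)] with n hn
    exact hn.le
  · obtain ⟨j, hj0, hj⟩ := hsp δ hδ
    have hjr : (0 : ℝ) < j := by exact_mod_cast hj0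
    obtain ⟨N, hN⟩ := eventually_atTop.1 (h (δ / (2 * j)) (by positivity))
    filter_upwards [eventually_ge_atTop (N + j + 1)] with n hn
    by_contra hcon
    push Not at hcon
    obtain ⟨_, ⟨i, hi, hb⟩⟩ := hj n (by omega) hcon
    have h1 := hN (n + i) (by omega)
    linarith

/-- **Exceptional radii lie in spikes of bounded width.** -/
theorem result :
    (Spikes gens ∧ OneSided gens) ∧
      ∀ (G : Type) [Group G] (S : Set G), S.Finite → Subexponential S → Spikes S ∧ OneSided S :=
  ⟨⟨spikes gens_finite subexponential, oneSided gens_finite subexponential⟩,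
    fun _ _ _ hS hsub => ⟨spikes hS hsub, oneSided hS hsub⟩⟩

end Pool.Agent.Results.MP_4613a9_al.OneSidedDifferences
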