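import Pool.Agent.GrW.Len
import Pool.Agent.GrW.Fro
import Pool.Agent.GrW.An
import Pool.Agent.GrW.Fin

/-!
# The ratios of the growth function of the first Grigorchuk group are close to `1` on average in every window

The generators and the growth function `γ` are those of the frozen statement S01349.

Proof.  Give the letters `a, b, c, d` the weights `5, 5, 3, 2`.  An element of weight at most `R` is the action of an
alternating word of weight at most `R`, and the two sections of such a word at the first level have together weight at
most `7 (R + 5) / 8`.  Hence `log γ(k) = O(k ^ (9/10))`; and `γ(n + k) ≤ γ(n) γ(k)`.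
-/

set_option autoImplicit false

namespace Pool.Agent.Results.MP_4613a9_al.WindowMeans

open Pool.Agent.GrW

/-- For the growth function `γ` of the first Grigorchuk group and `r j = γ (j + 1) / γ j`: the sum of `|r j - 1|` over
any `k` consecutive indices `j` is at most `C * k ^ (9/10)`.  So the mean of `|r j - 1|` over `k` consecutive indices
tends to `0` for `k → ∞`, uniformly in the position of the window. -/
theorem result :
    ∀ (S : Set (List Bool → List Bool)),
      S = {(fun x : List Bool => x.modifyHead (fun t => !t)),
           (fun x : List Bool =>
              if (x.takeWhile (fun t => t)).length % 3 = 2 then x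
              else x.take ((x.takeWhile (fun t => t)).length + 1) ++
                (x.drop ((x.takeWhile (fun t => t)).length + 1)).modifyHead (fun t => !t)),
           (fun x : List Bool =>
              if (x.takeWhile (fun t => t)).length % 3 = 1 then x
              else x.take ((x.takeWhile (fun t => t)).length + 1) ++
                (x.drop ((x.takeWhile (fun t => t)).length + 1)).modifyHead (fun t => !t)),
           (fun x : List Bool =>
              if (x.takeWhile (fun t => t)).length % 3 = 0 then x
              else x.take ((x.takeWhile (fun t => t)).length + 1) ++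
                (x.drop ((x.takeWhile (fun t => t)).length + 1)).modifyHead (fun t => !t))} →
      ∀ γ : ℕ → ℕ,
        (∀ n : ℕ, γ n = Nat.card {g : List Bool → List Bool |
            ∃ l : List (List Bool → List Bool), l.length ≤ n ∧ (∀ s ∈ l, s ∈ S) ∧
              g = l.foldr (fun f h => f ∘ h) id}) →
        ∃ C : ℝ, ∀ n k : ℕ, ∑ j ∈ Finset.Ico n (n + k), |(γ (j + 1) : ℝ) / γ j - 1| ≤
          C * (k : ℝ) ^ (9 / 10 : ℝ) := by
  intro S hS γ hγ
  rw [gens_eq] at hS
  have e : ∀ n, γ n = (lb n).ncard := by
    intro n
    rw [hγ n, words_eq S hS n]
    rfl
  obtain ⟨C, hC, hlog⟩ := growth_of_rec (fun R => (ball R).ncard) ball_pos ball_rec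
  refine windows γ (fun n => by rw [e]; exact lb_pos n) ?_ (fun n => by rw [e, e]; exact lb_succ n)
    (fun n k => by rw [e, e, e]; exact lb_add n k) (5 * C) ?_
  · intro m n h
    rw [e, e]
    exact lb_mono h
  · intro k
    rw [e]
    exact log_lb hC hlog k

end Pool.Agent.Results.MP_4613a9_al.WindowMeans
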